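import Mathlib
import Pool.Agent.Helper71.FK.Defs

/-!
# Module M4: Talenti comparison and the inequality (star)
-/

open MeasureTheory Metric Set Filter Topology
open scoped ENNReal

namespace Pool.Agent.Helper61.FK

open Pool.Agent.Helper71.FK

/-! ## numerical part -/

lemma num_step1 {N : ℕ} (hN : 1 ≤ N) {x H : ℝ} (hx : 1 ≤ x) (hH0 : 0 ≤ H) (hH1 : H ≤ 1)
    (h : H ≤ x ^ 2 * (x ^ N - 1)) : 2 / N * (H - 5 * H ^ 2) ≤ x ^ 2 - 1 := by
  have hN' : (1 : ℝ) ≤ N := by exact_mod_cast hN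
  have hN0 : (0 : ℝ) < N := by linarith
  set z : ℝ := N * (x ^ 2 - 1) / 2 with hz
  have hx2 : x ^ 2 - 1 = 2 / N * z := by
    rw [hz]; field_simp
  rw [hx2]
  apply mul_le_mul_of_nonneg_left _ (by positivity)
  have hz0 : 0 ≤ z := by
    rw [hz]
    have : 0 ≤ x ^ 2 - 1 := by nlinarith
    positivity
  by_cases hzH : H ≤ z
  · nlinarith [sq_nonneg H]
  · push Not at hzH
    have hz1 : z ≤ 1 := by linarith
    have hy : x ^ 2 - 1 ≤ 2 * z := by
      rw [hx2]
      have : 2 / (N : ℝ) ≤ 2 := by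
        rw [div_le_iff₀ hN0]; nlinarith
      nlinarith
    have hxe : x ≤ Real.exp ((x ^ 2 - 1) / 2) := by
      have h1 : x ^ 2 ≤ Real.exp ((x ^ 2 - 1) / 2) ^ 2 := by
        rw [← Real.exp_nat_mul]
        have h2 := Real.add_one_le_exp (x ^ 2 - 1)
        have h3 : ((2 : ℕ) : ℝ) * ((x ^ 2 - 1) / 2) = x ^ 2 - 1 := by push_cast; ring
        rw [h3]
        linarith
      exact le_of_sq_le_sq h1 (Real.exp_pos _).le
    have hxN : x ^ N ≤ Real.exp z := by
      calc x ^ N ≤ Real.exp ((x ^ 2 - 1) / 2) ^ N := pow_le_pow_left₀ (by linarith) hxe N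
        _ = Real.exp z := by
          rw [← Real.exp_nat_mul]
          congr 1
          rw [hz]; ring
    have hexp : Real.exp z ≤ 1 + z + z ^ 2 := by
      have h1 := Real.abs_exp_sub_one_sub_id_le (x := z) (by rw [abs_of_nonneg hz0]; exact hz1)
      have h2 := (abs_le.1 h1).2
      linarith
    have h1 : H ≤ (1 + 2 * z) * (z + z ^ 2) := by
      refine h.trans ?_
      have h2 : x ^ N - 1 ≤ z + z ^ 2 := by linarith
      have h3 : x ^ 2 ≤ 1 + 2 * z := by linarith
      have h4 : 0 ≤ x ^ N - 1 := by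
        have := one_le_pow₀ hx (n := N)
        linarith
      calc x ^ 2 * (x ^ N - 1) ≤ (1 + 2 * z) * (x ^ N - 1) :=
            mul_le_mul_of_nonneg_right h3 h4
        _ ≤ (1 + 2 * z) * (z + z ^ 2) := mul_le_mul_of_nonneg_left h2 (by linarith)
    have h5 : z ^ 3 ≤ z ^ 2 := by nlinarith [sq_nonneg z]
    have h6 : z ^ 2 ≤ H ^ 2 := by nlinarith
    nlinarith

lemma num_step2 {N : ℕ} (hN : 1 ≤ N) {a b h : ℝ} (hb : 0 < b) (hab : b ≤ a) (hh : 0 ≤ h)
    (h1 : N ^ 2 * h * b ^ N ≤ a ^ 2 * (a ^ N - b ^ N)) (hs : N ^ 2 * h ≤ b ^ 2) :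
    b ^ 2 ≤ a ^ 2 - 2 * N * h + 10 * N ^ 3 * h ^ 2 / b ^ 2 := by
  have hN' : (1 : ℝ) ≤ N := by exact_mod_cast hN
  have hN0 : (0 : ℝ) < N := by linarith
  have hx : 1 ≤ a / b := by rwa [le_div_iff₀ hb, one_mul]
  have hH0 : 0 ≤ N ^ 2 * h / b ^ 2 := by positivity
  have hH1 : N ^ 2 * h / b ^ 2 ≤ 1 := by rwa [div_le_iff₀ (by positivity), one_mul]
  have hH : N ^ 2 * h / b ^ 2 ≤ (a / b) ^ 2 * ((a / b) ^ N - 1) := by
    rw [div_le_iff₀ (by positivity)]
    have hbN : 0 < b ^ N := by positivity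
    have e : (a / b) ^ 2 * ((a / b) ^ N - 1) * b ^ 2 = a ^ 2 * (a ^ N - b ^ N) / b ^ N := by
      rw [div_pow, div_pow]
      field_simp
    rw [e, le_div_iff₀ hbN]
    exact h1
  have h2 := num_step1 hN hx hH0 hH1 hH
  have h3 : 2 / N * (N ^ 2 * h / b ^ 2 - 5 * (N ^ 2 * h / b ^ 2) ^ 2) * b ^ 2 ≤
      ((a / b) ^ 2 - 1) * b ^ 2 := mul_le_mul_of_nonneg_right h2 (by positivity)
  have e1 : ((a / b) ^ 2 - 1) * b ^ 2 = a ^ 2 - b ^ 2 := by
    field_simp
  have e2 : 2 / N * (N ^ 2 * h / b ^ 2 - 5 * (N ^ 2 * h / b ^ 2) ^ 2) * b ^ 2 =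
      2 * N * h - 10 * N ^ 3 * h ^ 2 / b ^ 2 := by
    field_simp
    ring
  rw [e1, e2] at h3
  linarith

lemma num_main {N : ℕ} (hN : 1 ≤ N) {m : ℝ → ℝ} {s : ℝ} (hs : 0 ≤ s)
    (hmono : ∀ u v, 0 ≤ u → u ≤ v → v ≤ s → m v ≤ m u) (hpos : 0 < m s)
    (hstep : ∀ u v, 0 ≤ u → u ≤ v → v ≤ s →
      N ^ 2 * (v - u) * m v ^ N ≤ m u ^ 2 * (m u ^ N - m v ^ N)) :
    m s ^ 2 ≤ m 0 ^ 2 - 2 * N * s := by
  have hN' : (1 : ℝ) ≤ N := by exact_mod_cast hN
  set ε := m s with hε
  have key : ∀ n : ℕ, 0 < n → N ^ 2 * (s / n) ≤ ε ^ 2 →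
      m s ^ 2 ≤ m 0 ^ 2 - 2 * N * s + (10 * N ^ 3 * s ^ 2 / ε ^ 2) * (1 / n) := by
    intro n hn hsm
    have hn' : (0 : ℝ) < n := by exact_mod_cast hn
    set h := s / n with hh
    have hh0 : 0 ≤ h := by positivity
    have hind : ∀ k : ℕ, k ≤ n →
        m (k * h) ^ 2 ≤ m 0 ^ 2 - 2 * N * (k * h) + k * (10 * N ^ 3 * h ^ 2 / ε ^ 2) := by
      intro k
      induction k with
      | zero => intro _; simp
      | succ k ih =>
        intro hk
        have ih' := ih (by omega)
        have hks : ((k + 1 : ℕ) : ℝ) * h ≤ s := by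
          have h1 : ((k + 1 : ℕ) : ℝ) ≤ n := by exact_mod_cast hk
          calc ((k + 1 : ℕ) : ℝ) * h ≤ n * h := mul_le_mul_of_nonneg_right h1 hh0
            _ = s := by rw [hh]; field_simp
        have hle : (k : ℝ) * h ≤ ((k + 1 : ℕ) : ℝ) * h := by
          push_cast; linarith
        have hk0 : 0 ≤ (k : ℝ) * h := by positivity
        have hkp : 0 ≤ ((k + 1 : ℕ) : ℝ) * h := by positivity
        have hεle : ε ≤ m (((k + 1 : ℕ) : ℝ) * h) := hmono _ _ hkp hks le_rfl
        have hst := hstep _ _ hk0 hle hks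
        have hsub : ((k + 1 : ℕ) : ℝ) * h - (k : ℝ) * h = h := by push_cast; ring
        rw [hsub] at hst
        have hε2 : ε ^ 2 ≤ m (((k + 1 : ℕ) : ℝ) * h) ^ 2 := by
          apply pow_le_pow_left₀ hpos.le hεle
        have h2 := num_step2 hN (lt_of_lt_of_le hpos hεle) (hmono _ _ hk0 hle hks) hh0 hst
          (hsm.trans hε2)
        have h3 : 10 * N ^ 3 * h ^ 2 / m (((k + 1 : ℕ) : ℝ) * h) ^ 2 ≤
            10 * N ^ 3 * h ^ 2 / ε ^ 2 := by
          apply div_le_div_of_nonneg_left (by positivity) (by positivity) hε2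
        push_cast at h2 h3 ⊢
        linarith
    have h4 := hind n le_rfl
    have h5 : (n : ℝ) * h = s := by rw [hh]; field_simp
    rw [h5] at h4
    refine h4.trans (le_of_eq ?_)
    congr 1
    rw [hh]
    field_simp
  have hlim : Tendsto (fun n : ℕ => m 0 ^ 2 - 2 * N * s +
      (10 * N ^ 3 * s ^ 2 / ε ^ 2) * (1 / (n : ℝ))) atTop
      (𝓝 (m 0 ^ 2 - 2 * N * s + (10 * N ^ 3 * s ^ 2 / ε ^ 2) * 0)) :=
    (tendsto_one_div_atTop_nhds_zero_nat.const_mul _).const_add _
  rw [mul_zero, add_zero] at hlim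
  apply ge_of_tendsto hlim
  have h6 : Tendsto (fun n : ℕ => (N : ℝ) ^ 2 * (s / n)) atTop (𝓝 ((N : ℝ) ^ 2 * 0)) :=
    (tendsto_const_div_atTop_nhds_zero_nat s).const_mul _
  rw [mul_zero] at h6
  have h7 : ∀ᶠ n : ℕ in atTop, (N : ℝ) ^ 2 * (s / n) < ε ^ 2 :=
    h6.eventually (gt_mem_nhds (by positivity))
  filter_upwards [h7, eventually_gt_atTop 0] with n h8 h9
  exact key n h9 h8.le

/-! ## the analytic data -/

/-- primitive of `β` vanishing at `0` -/
noncomputable def Pr (β : ℝ → ℝ) (t : ℝ) : ℝ := ∫ s in (0 : ℝ)..t, β s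

lemma Pr_hasDerivAt {β : ℝ → ℝ} (hβ : Continuous β) (t : ℝ) : HasDerivAt (Pr β) (β t) t :=
  intervalIntegral.integral_hasDerivAt_right (hβ.intervalIntegrable _ _)
    (hβ.stronglyMeasurableAtFilter _ _) hβ.continuousAt

lemma Pr_deriv {β : ℝ → ℝ} (hβ : Continuous β) : deriv (Pr β) = β := by
  ext t
  exact (Pr_hasDerivAt hβ t).deriv

lemma Pr_contDiff {β : ℝ → ℝ} (hβ : Continuous β) : ContDiff ℝ 1 (Pr β) := by
  rw [contDiff_one_iff_deriv]
  refine ⟨fun t => (Pr_hasDerivAt hβ t).differentiableAt, ?_⟩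
  rw [Pr_deriv hβ]
  exact hβ

lemma Pr_zero (β : ℝ → ℝ) : Pr β 0 = 0 := by
  unfold Pr
  exact intervalIntegral.integral_same

lemma Pr_mono {β : ℝ → ℝ} (hβ : Continuous β) (h0 : ∀ t, 0 ≤ β t) : Monotone (Pr β) := by
  apply monotone_of_deriv_nonneg
  · exact fun t => (Pr_hasDerivAt hβ t).differentiableAt
  · intro t
    rw [Pr_deriv hβ]
    exact h0 t

lemma Pr_sub {β : ℝ → ℝ} (hβ : Continuous β) (s t : ℝ) : Pr β t - Pr β s = ∫ x in s..t, β x := by
  unfold Pr
  rw [intervalIntegral.integral_interval_sub_left (hβ.intervalIntegrable _ _)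
    (hβ.intervalIntegrable _ _)]

lemma Pr_le {β : ℝ → ℝ} (hβ : Continuous β) (h1 : ∀ t, β t ≤ 1) {t : ℝ} (ht : 0 ≤ t) :
    Pr β t ≤ t := by
  unfold Pr
  calc ∫ s in (0 : ℝ)..t, β s ≤ ∫ s in (0 : ℝ)..t, (1 : ℝ) := by
        apply intervalIntegral.integral_mono_on ht (hβ.intervalIntegrable _ _)
          (continuous_const.intervalIntegrable _ _)
        intro x _
        exact h1 x
    _ = t := by simp

lemma Pr_nonneg {β : ℝ → ℝ} (h0 : ∀ t, 0 ≤ β t) {t : ℝ} (ht : 0 ≤ t) : 0 ≤ Pr β t := by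
  unfold Pr
  exact intervalIntegral.integral_nonneg ht fun x _ => h0 x

/-- superlevel sets, with the convention that the level `0` is the whole domain -/
def SL {N : ℕ} (Ω : Set (E N)) (w : E N → ℝ) (s : ℝ) : Set (E N) :=
  if s ≤ 0 then Ω else {x | s ≤ w x}

/-- The properties of a torsion pair which are used in this file. -/
structure Dat {N : ℕ} (Ω : Set (E N)) (w : E N → ℝ) (g : E N → E N) : Prop where
  ms : MeasurableSet Ω
  fin : volume Ω ≠ ∞
  wm : Measurable w
  gm : Measurable g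
  wpos : ∀ x, 0 ≤ w x
  w0 : ∀ x, x ∉ Ω → w x = 0
  g0 : ∀ x, x ∉ Ω → g x = 0
  wint : Integrable w
  gint : Integrable (fun x => ‖g x‖ ^ 2)
  EL : ∀ β : ℝ → ℝ, Continuous β → (∀ t, 0 ≤ β t) → (∀ t, β t ≤ 1) →
    ∫ x, β (w x) * ‖g x‖ ^ 2 = ∫ x, Pr β (w x)
  iso : ∀ (β : ℝ → ℝ) (s r : ℝ), Continuous β → (∀ t, 0 ≤ β t) → (∀ t, β t ≤ 1) → 0 ≤ s →
    0 ≤ r → (0 < s → ∀ t ≤ s, β t = 0) →
    volume (SL Ω w s) ≤ ENNReal.ofReal (om N * r ^ N) →
    N * ∫ x, Pr β (w x) ≤ r * ∫ x, β (w x) * ‖g x‖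

namespace Dat

variable {N : ℕ} {Ω : Set (E N)} {w : E N → ℝ} {g : E N → E N}

lemma SL_subset (hd : Dat Ω w g) (s : ℝ) : SL Ω w s ⊆ Ω := by
  unfold SL
  split_ifs with h
  · exact le_rfl
  · intro x hx
    by_contra hxΩ
    have h1 := hd.w0 x hxΩ
    have h2 : s ≤ w x := hx
    rw [h1] at h2
    exact h h2

lemma SL_meas (hd : Dat Ω w g) (s : ℝ) : MeasurableSet (SL Ω w s) := by
  unfold SL
  split_ifs with h
  · exact hd.ms
  · exact measurableSet_le measurable_const hd.wm

lemma SL_fin (hd : Dat Ω w g) (s : ℝ) : volume (SL Ω w s) ≠ ∞ :=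
  ne_top_of_le_ne_top hd.fin (measure_mono (hd.SL_subset s))

lemma SL_anti (hd : Dat Ω w g) {s t : ℝ} (h : s ≤ t) : SL Ω w t ⊆ SL Ω w s := by
  by_cases hs : s ≤ 0
  · have : SL Ω w s = Ω := by unfold SL; rw [if_pos hs]
    rw [this]
    exact hd.SL_subset t
  · unfold SL
    rw [if_neg hs, if_neg (by linarith)]
    intro x hx
    exact h.trans hx

/-- dominating function -/
lemma domInt (hd : Dat Ω w g) : Integrable (fun x => Ω.indicator (fun _ => (1 : ℝ)) x +
    ‖g x‖ ^ 2) := by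
  apply Integrable.add _ hd.gint
  rw [integrable_indicator_iff hd.ms]
  exact integrableOn_const hd.fin

lemma int1 (hd : Dat Ω w g) {β : ℝ → ℝ} (hβ : Continuous β) (h0 : ∀ t, 0 ≤ β t)
    (h1 : ∀ t, β t ≤ 1) : Integrable (fun x => β (w x) * ‖g x‖ ^ 2) := by
  apply hd.gint.mono'
  · exact ((hβ.measurable.comp hd.wm).mul (hd.gm.norm.pow_const 2)).aestronglyMeasurable
  · apply Eventually.of_forall
    intro x
    rw [Real.norm_of_nonneg (mul_nonneg (h0 _) (sq_nonneg _))]
    have := mul_le_mul_of_nonneg_right (h1 (w x)) (sq_nonneg ‖g x‖)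
    linarith

lemma int2 (hd : Dat Ω w g) {β : ℝ → ℝ} (hβ : Continuous β) (h0 : ∀ t, 0 ≤ β t)
    (h1 : ∀ t, β t ≤ 1) : Integrable (fun x => β (w x) * ‖g x‖) := by
  apply hd.domInt.mono'
  · exact ((hβ.measurable.comp hd.wm).mul hd.gm.norm).aestronglyMeasurable
  · apply Eventually.of_forall
    intro x
    rw [Real.norm_of_nonneg (mul_nonneg (h0 _) (norm_nonneg _))]
    have h2 := mul_le_mul_of_nonneg_right (h1 (w x)) (norm_nonneg (g x))
    by_cases hx : x ∈ Ω
    · rw [indicator_of_mem hx]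
      nlinarith [sq_nonneg (‖g x‖ - 1), norm_nonneg (g x)]
    · rw [indicator_of_notMem hx, hd.g0 x hx]
      simp

lemma int3 (hd : Dat Ω w g) {β : ℝ → ℝ} (hβ : Continuous β) (h0 : ∀ t, 0 ≤ β t)
    (h1 : ∀ t, β t ≤ 1) (hb : β 0 = 0) : Integrable (fun x => β (w x)) := by
  apply hd.domInt.mono'
  · exact (hβ.measurable.comp hd.wm).aestronglyMeasurable
  · apply Eventually.of_forall
    intro x
    rw [Real.norm_of_nonneg (h0 _)]
    by_cases hx : x ∈ Ω
    · rw [indicator_of_mem hx]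
      have := h1 (w x)
      nlinarith [sq_nonneg ‖g x‖]
    · rw [hd.w0 x hx, hb, indicator_of_notMem hx]
      positivity

lemma int4 (hd : Dat Ω w g) {β : ℝ → ℝ} (hβ : Continuous β) (h0 : ∀ t, 0 ≤ β t)
    (h1 : ∀ t, β t ≤ 1) : Integrable (fun x => Pr β (w x)) := by
  apply hd.wint.mono'
  · exact (((Pr_contDiff hβ).continuous.measurable).comp hd.wm).aestronglyMeasurable
  · apply Eventually.of_forall
    intro x
    rw [Real.norm_of_nonneg (Pr_nonneg h0 (hd.wpos x))]
    exact Pr_le hβ h1 (hd.wpos x)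

/-- the fundamental inequality `N² ∫ ψ(w) ≤ r² ∫ ψ'(w)` -/
lemma fund (hd : Dat Ω w g) (hN : 1 ≤ N) {β : ℝ → ℝ} {s r : ℝ} (hβ : Continuous β)
    (h0 : ∀ t, 0 ≤ β t) (h1 : ∀ t, β t ≤ 1) (hb : β 0 = 0) (hs : 0 ≤ s) (hr : 0 ≤ r)
    (hz : 0 < s → ∀ t ≤ s, β t = 0)
    (hv : volume (SL Ω w s) ≤ ENNReal.ofReal (om N * r ^ N)) :
    N ^ 2 * ∫ x, Pr β (w x) ≤ r ^ 2 * ∫ x, β (w x) := by
  have hN0 : (0 : ℝ) < N := by exact_mod_cast hN
  have hiso := hd.iso β s r hβ h0 h1 hs hr hz hv
  have hEL := hd.EL β hβ h0 h1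
  have i1 := hd.int1 hβ h0 h1
  have i2 := hd.int2 hβ h0 h1
  have i3 := hd.int3 hβ h0 h1 hb
  have hsq : 0 ≤ ∫ x, (β (w x) * ‖g x‖ ^ 2 - 2 * (r / N) * (β (w x) * ‖g x‖) +
      (r / N) ^ 2 * β (w x)) := by
    apply integral_nonneg
    intro x
    have : β (w x) * ‖g x‖ ^ 2 - 2 * (r / N) * (β (w x) * ‖g x‖) + (r / N) ^ 2 * β (w x) =
        β (w x) * (‖g x‖ - r / N) ^ 2 := by ring
    simp only [Pi.zero_apply]
    rw [this]
    exact mul_nonneg (h0 _) (sq_nonneg _)
  have j1 : Integrable (fun x => β (w x) * ‖g x‖ ^ 2 - 2 * (r / N) * (β (w x) * ‖g x‖)) :=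
    i1.sub (i2.const_mul _)
  have j2 : Integrable (fun x => (r / N) ^ 2 * β (w x)) := i3.const_mul _
  rw [integral_add j1 j2, integral_sub i1 (i2.const_mul _),
    integral_const_mul, integral_const_mul, hEL] at hsq
  set I := ∫ x, Pr β (w x) with hI
  set A := ∫ x, β (w x) * ‖g x‖ with hA
  set B := ∫ x, β (w x) with hB
  have h2 : I ≤ r / N * A := by
    rw [div_mul_eq_mul_div, le_div_iff₀ hN0]
    linarith
  have h3 : I ≤ (r / N) ^ 2 * B := by linarith
  calc N ^ 2 * I ≤ N ^ 2 * ((r / N) ^ 2 * B) := mul_le_mul_of_nonneg_left h3 (by positivity)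
    _ = r ^ 2 * B := by field_simp

/-- trapezoid function -/
noncomputable def trap (u v η t : ℝ) : ℝ := max 0 (min 1 (min ((t - u) / η) ((v - t) / η)))

lemma trap_cont (u v η : ℝ) : Continuous (trap u v η) := by
  unfold trap
  fun_prop

lemma trap_nonneg (u v η t : ℝ) : 0 ≤ trap u v η t := le_max_left _ _

lemma trap_le_one (u v η t : ℝ) : trap u v η t ≤ 1 := by
  unfold trap
  exact max_le zero_le_one (min_le_left _ _)

lemma trap_left {u v η t : ℝ} (hη : 0 < η) (h : t ≤ u) : trap u v η t = 0 := by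
  unfold trap
  apply max_eq_left
  refine (min_le_right _ _).trans ((min_le_left _ _).trans ?_)
  exact div_nonpos_of_nonpos_of_nonneg (by linarith) hη.le

lemma trap_right {u v η t : ℝ} (hη : 0 < η) (h : v ≤ t) : trap u v η t = 0 := by
  unfold trap
  apply max_eq_left
  refine (min_le_right _ _).trans ((min_le_right _ _).trans ?_)
  exact div_nonpos_of_nonpos_of_nonneg (by linarith) hη.le

lemma trap_mid {u v η t : ℝ} (hη : 0 < η) (h1 : u + η ≤ t) (h2 : t ≤ v - η) :
    trap u v η t = 1 := by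
  unfold trap
  have h3 : 1 ≤ (t - u) / η := by rw [le_div_iff₀ hη]; linarith
  have h4 : 1 ≤ (v - t) / η := by rw [le_div_iff₀ hη]; linarith
  rw [min_eq_left (le_min h3 h4)]
  exact max_eq_right zero_le_one

lemma trap_int {u v η : ℝ} (hη : 0 < η) (hu : 0 ≤ u) (huv : u + η ≤ v - η) :
    v - u - 2 * η ≤ Pr (trap u v η) v := by
  have hc := trap_cont u v η
  have h1 : Pr (trap u v η) v - Pr (trap u v η) (v - η) ≥ 0 := by
    have := Pr_mono hc (trap_nonneg u v η) (show v - η ≤ v by linarith)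
    linarith
  have h2 : 0 ≤ Pr (trap u v η) (u + η) := Pr_nonneg (trap_nonneg u v η) (by linarith)
  have h3 := Pr_sub hc (u + η) (v - η)
  have h4 : ∫ x in (u + η)..(v - η), trap u v η x = ∫ x in (u + η)..(v - η), (1 : ℝ) := by
    apply intervalIntegral.integral_congr
    intro x hx
    rw [uIcc_of_le huv] at hx
    exact trap_mid hη hx.1 hx.2
  rw [h4] at h3
  simp only [intervalIntegral.integral_const, smul_eq_mul, mul_one] at h3
  linarith

/-- The step inequality. -/
lemma stepIneq (hd : Dat Ω w g) (hN : 1 ≤ N) {u v r : ℝ} (hu : 0 ≤ u) (huv : u < v)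
    (hr : 0 ≤ r) (hv : volume (SL Ω w u) ≤ ENNReal.ofReal (om N * r ^ N)) :
    N ^ 2 * (v - u) * volume.real (SL Ω w v) ≤
      r ^ 2 * (volume.real (SL Ω w u) - volume.real (SL Ω w v)) := by
  have hN0 : (0 : ℝ) < N := by exact_mod_cast hN
  set μ := volume.real (SL Ω w v) with hμ
  set ν := volume.real (SL Ω w u) with hν
  have hv0 : 0 < v := lt_of_le_of_lt hu huv
  have key : ∀ η : ℝ, 0 < η → 2 * η ≤ v - u → N ^ 2 * (v - u - 2 * η) * μ ≤ r ^ 2 * (ν - μ) := by
    intro η hη hη2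
    set β := trap u v η with hβ
    have hc : Continuous β := trap_cont u v η
    have h0 : ∀ t, 0 ≤ β t := trap_nonneg u v η
    have h1 : ∀ t, β t ≤ 1 := trap_le_one u v η
    have hb : β 0 = 0 := trap_left hη hu
    have hf := hd.fund hN hc h0 h1 hb hu hr (fun _ t ht => trap_left hη ht) hv
    have i3 := hd.int3 hc h0 h1 hb
    have i4 := hd.int4 hc h0 h1
    have hlow : (v - u - 2 * η) * μ ≤ ∫ x, Pr β (w x) := by
      calc (v - u - 2 * η) * μ = ∫ x in SL Ω w v, (v - u - 2 * η) := by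
            rw [setIntegral_const, smul_eq_mul, mul_comm]
        _ ≤ ∫ x in SL Ω w v, Pr β (w x) := by
            apply setIntegral_mono_on (integrableOn_const (hd.SL_fin v)) i4.integrableOn
              (hd.SL_meas v)
            intro x hx
            have hx' : v ≤ w x := by
              unfold SL at hx
              rw [if_neg (by linarith)] at hx
              exact hx
            exact (trap_int hη hu (by linarith)).trans (Pr_mono hc h0 hx')
        _ ≤ ∫ x, Pr β (w x) := by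
            apply setIntegral_le_integral i4
            exact Eventually.of_forall fun x => Pr_nonneg h0 (hd.wpos x)
    have hup : ∫ x, β (w x) ≤ ν - μ := by
      have e1 : ν - μ = ∫ x, ((SL Ω w u \ SL Ω w v).indicator (fun _ => (1 : ℝ)) x) := by
        rw [integral_indicator ((hd.SL_meas u).diff (hd.SL_meas v)), setIntegral_const,
          smul_eq_mul, mul_one, measureReal_sdiff (hd.SL_anti huv.le) (hd.SL_meas v)
          (hd.SL_fin u)]
      rw [e1]
      apply integral_mono i3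
      · rw [integrable_indicator_iff ((hd.SL_meas u).diff (hd.SL_meas v))]
        exact integrableOn_const (ne_top_of_le_ne_top (hd.SL_fin u) (measure_mono sdiff_subset))
      · intro x
        by_cases hx : x ∈ SL Ω w u \ SL Ω w v
        · rw [indicator_of_mem hx]
          exact h1 _
        · rw [indicator_of_notMem hx]
          apply le_of_eq
          by_cases hxv : v ≤ w x
          · exact trap_right hη hxv
          · have hxnv : x ∉ SL Ω w v := by
              unfold SL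
              rw [if_neg (by linarith)]
              exact hxv
            have hxnu : x ∉ SL Ω w u := fun h => hx ⟨h, hxnv⟩
            apply trap_left hη
            by_cases hu0 : u ≤ 0
            · unfold SL at hxnu
              rw [if_pos hu0] at hxnu
              rw [hd.w0 x hxnu]
              exact hu
            · unfold SL at hxnu
              rw [if_neg hu0] at hxnu
              have : ¬ u ≤ w x := hxnu
              linarith
    calc N ^ 2 * (v - u - 2 * η) * μ = N ^ 2 * ((v - u - 2 * η) * μ) := by ring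
      _ ≤ N ^ 2 * ∫ x, Pr β (w x) := mul_le_mul_of_nonneg_left hlow (by positivity)
      _ ≤ r ^ 2 * ∫ x, β (w x) := hf
      _ ≤ r ^ 2 * (ν - μ) := mul_le_mul_of_nonneg_left hup (by positivity)
  have hμ0 : 0 ≤ μ := measureReal_nonneg
  apply le_of_forall_pos_le_add
  intro ε hε
  set η := min ((v - u) / 2) (ε / (2 * N ^ 2 * (μ + 1))) with hη
  have hη0 : 0 < η := by
    apply lt_min
    · linarith
    · positivity
  have h2 := key η hη0 (by
    have := min_le_left ((v - u) / 2) (ε / (2 * N ^ 2 * (μ + 1)))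
    linarith)
  have h3 : η ≤ ε / (2 * N ^ 2 * (μ + 1)) := min_le_right _ _
  have h4 : N ^ 2 * (2 * η) * μ ≤ ε := by
    rw [le_div_iff₀ (by positivity)] at h3
    have : N ^ 2 * (2 * η) * μ ≤ η * (2 * N ^ 2 * (μ + 1)) := by
      have h5 : 0 ≤ (N : ℝ) ^ 2 * (2 * η) := by positivity
      nlinarith
    linarith
  nlinarith

lemma om_pos (N : ℕ) : 0 < om N := by
  unfold om Measure.real
  exact ENNReal.toReal_pos (measure_ball_pos volume _ one_pos).ne' measure_ball_lt_top.ne

/-- Talenti comparison for closed superlevel sets -/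
theorem talentiClosed (hd : Dat Ω w g) (hN : 1 ≤ N) (hV : volume Ω = ENNReal.ofReal (om N))
    {s : ℝ} (hs : 0 ≤ s) :
    volume.real (SL Ω w s) ≤ om N * (Real.sqrt (1 - 2 * N * s)) ^ N := by
  have hom := om_pos N
  have hNne : N ≠ 0 := by omega
  have hN0 : (0 : ℝ) < N := by exact_mod_cast hN
  set m : ℝ → ℝ := fun u => (volume.real (SL Ω w u) / om N) ^ ((N : ℝ)⁻¹) with hm
  have hm0 : ∀ u, 0 ≤ m u := fun u => Real.rpow_nonneg (div_nonneg measureReal_nonneg hom.le) _
  have hmN : ∀ u, m u ^ N = volume.real (SL Ω w u) / om N := fun u =>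
    Real.rpow_inv_natCast_pow (div_nonneg measureReal_nonneg hom.le) hNne
  have hvol : ∀ u, volume.real (SL Ω w u) = om N * m u ^ N := by
    intro u
    rw [hmN]
    field_simp
  have hm1 : m 0 = 1 := by
    have h1 : SL Ω w 0 = Ω := by unfold SL; rw [if_pos le_rfl]
    have h2 : volume.real Ω = om N := by
      unfold Measure.real
      rw [hV, ENNReal.toReal_ofReal hom.le]
    simp only [hm]
    rw [h1, h2, div_self hom.ne', Real.one_rpow]
  by_cases hz : m s = 0
  · rw [hvol, hz, zero_pow hNne, mul_zero]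
    positivity
  have hpos : 0 < m s := lt_of_le_of_ne (hm0 s) (Ne.symm hz)
  have hmono : ∀ u v, 0 ≤ u → u ≤ v → v ≤ s → m v ≤ m u := by
    intro u v _ huv _
    simp only [hm]
    apply Real.rpow_le_rpow (div_nonneg measureReal_nonneg hom.le) _ (by positivity)
    apply div_le_div_of_nonneg_right _ hom.le
    exact measureReal_mono (hd.SL_anti huv) (hd.SL_fin u)
  have hstep : ∀ u v, 0 ≤ u → u ≤ v → v ≤ s →
      N ^ 2 * (v - u) * m v ^ N ≤ m u ^ 2 * (m u ^ N - m v ^ N) := by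
    intro u v hu huv _
    rcases huv.eq_or_lt with rfl | huv
    · simp
    · have h1 := hd.stepIneq hN hu huv (hm0 u) (by
        rw [← hvol, ofReal_measureReal (hd.SL_fin u)])
      rw [hvol u, hvol v] at h1
      have h2 : om N * (N ^ 2 * (v - u) * m v ^ N) ≤
          om N * (m u ^ 2 * (m u ^ N - m v ^ N)) := by
        refine le_trans (le_of_eq ?_) (h1.trans (le_of_eq ?_)) <;> ring
      exact le_of_mul_le_mul_left h2 hom
  have h3 := num_main hN hs hmono hpos hstep
  rw [hm1, one_pow] at h3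
  rw [hvol]
  apply mul_le_mul_of_nonneg_left _ hom.le
  apply pow_le_pow_left₀ (hm0 s)
  exact Real.le_sqrt_of_sq_le h3

theorem talenti (hd : Dat Ω w g) (hN : 1 ≤ N) (hV : volume Ω = ENNReal.ofReal (om N))
    (s : ℝ) (hs : 0 ≤ s) :
    volume.real {x | s < w x} ≤ om N * (Real.sqrt (1 - 2 * N * s)) ^ N := by
  refine le_trans ?_ (hd.talentiClosed hN hV hs)
  apply measureReal_mono _ (hd.SL_fin s)
  intro x hx
  have hx' : s < w x := hx
  unfold SL
  split_ifs with h
  · by_contra hxΩ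
    have := hd.w0 x hxΩ
    linarith
  · exact hx'.le

lemma w_le (hd : Dat Ω w g) (hN : 1 ≤ N) (hV : volume Ω = ENNReal.ofReal (om N)) :
    ∀ᵐ x, w x ≤ 1 / (2 * N) := by
  have hN0 : (0 : ℝ) < N := by exact_mod_cast hN
  have h1 := hd.talenti hN hV (1 / (2 * N)) (by positivity)
  have h2 : (1 : ℝ) - 2 * N * (1 / (2 * N)) = 0 := by field_simp; ring
  rw [h2, Real.sqrt_zero, zero_pow (by omega), mul_zero] at h1
  have h3 : volume.real {x | 1 / (2 * (N : ℝ)) < w x} = 0 := le_antisymm h1 measureReal_nonneg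
  have h4 : volume {x | 1 / (2 * (N : ℝ)) < w x} ≠ ∞ := by
    apply ne_top_of_le_ne_top hd.fin
    apply measure_mono
    intro x hx
    have hx' : 1 / (2 * (N : ℝ)) < w x := hx
    by_contra hxΩ
    have h5 := hd.w0 x hxΩ
    have : (0 : ℝ) < 1 / (2 * (N : ℝ)) := by positivity
    linarith
  rw [measureReal_eq_zero_iff h4] at h3
  rw [ae_iff]
  simp only [not_le]
  exact h3

lemma int5 (hd : Dat Ω w g) {β : ℝ → ℝ} (hβ : Continuous β) (h0 : ∀ t, 0 ≤ t → |β t| ≤ 1) :
    Integrable (fun x => β (w x) * ‖g x‖) := by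
  apply hd.domInt.mono'
  · exact ((hβ.measurable.comp hd.wm).mul hd.gm.norm).aestronglyMeasurable
  · apply Eventually.of_forall
    intro x
    rw [norm_mul, norm_norm, Real.norm_eq_abs]
    have h2 := mul_le_mul_of_nonneg_right (h0 (w x) (hd.wpos x)) (norm_nonneg (g x))
    by_cases hx : x ∈ Ω
    · rw [indicator_of_mem hx]
      nlinarith [sq_nonneg (‖g x‖ - 1), norm_nonneg (g x)]
    · rw [indicator_of_notMem hx, hd.g0 x hx]
      simp

/-- cut-offs -/
noncomputable def cf (h : ℝ) (k : ℕ) (t : ℝ) : ℝ :=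
  if k = 0 then 1 else max 0 (min 1 (t / h - (k - 1)))

lemma cf_cont (h : ℝ) (k : ℕ) : Continuous (cf h k) := by
  unfold cf
  split_ifs
  · exact continuous_const
  · fun_prop

lemma cf_nonneg (h : ℝ) (k : ℕ) (t : ℝ) : 0 ≤ cf h k t := by
  unfold cf
  split_ifs
  · exact zero_le_one
  · exact le_max_left _ _

lemma cf_le_one (h : ℝ) (k : ℕ) (t : ℝ) : cf h k t ≤ 1 := by
  unfold cf
  split_ifs
  · exact le_rfl
  · exact max_le zero_le_one (min_le_left _ _)

lemma cf_anti (h : ℝ) (k : ℕ) (t : ℝ) : cf h (k + 1) t ≤ cf h k t := by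
  by_cases hk : k = 0
  · have : cf h k t = 1 := by unfold cf; rw [if_pos hk]
    rw [this]
    exact cf_le_one _ _ _
  · unfold cf
    rw [if_neg hk, if_neg (Nat.succ_ne_zero k)]
    apply max_le_max le_rfl
    apply min_le_min le_rfl
    push_cast
    linarith

lemma cf_zero {h : ℝ} (hh : 0 < h) {k : ℕ} (hk : k ≠ 0) {t : ℝ} (ht : t ≤ (k - 1) * h) :
    cf h k t = 0 := by
  unfold cf
  rw [if_neg hk]
  apply max_eq_left
  refine (min_le_right _ _).trans ?_
  have : t / h ≤ k - 1 := by rwa [div_le_iff₀ hh]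
  linarith

lemma cf_one {h : ℝ} (hh : 0 < h) {k : ℕ} {t : ℝ} (ht : k * h ≤ t) :
    cf h k t = 1 := by
  unfold cf
  split_ifs
  · rfl
  · have : k ≤ t / h := by rwa [le_div_iff₀ hh]
    rw [min_eq_left (by linarith)]
    exact max_eq_right zero_le_one

/-- partition of unity -/
noncomputable def bf (h : ℝ) (K k : ℕ) (t : ℝ) : ℝ :=
  if k = K then cf h K t else cf h k t - cf h (k + 1) t

lemma bf_cont (h : ℝ) (K k : ℕ) : Continuous (bf h K k) := by
  unfold bf
  split_ifs
  · exact cf_cont _ _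
  · exact (cf_cont _ _).sub (cf_cont _ _)

lemma bf_nonneg (h : ℝ) (K k : ℕ) (t : ℝ) : 0 ≤ bf h K k t := by
  unfold bf
  split_ifs
  · exact cf_nonneg _ _ _
  · exact sub_nonneg.2 (cf_anti _ _ _)

lemma bf_le_one (h : ℝ) (K k : ℕ) (t : ℝ) : bf h K k t ≤ 1 := by
  unfold bf
  split_ifs
  · exact cf_le_one _ _ _
  · have := cf_le_one h k t
    have := cf_nonneg h (k + 1) t
    linarith

lemma bf_sum (h : ℝ) (K : ℕ) (t : ℝ) : ∑ k ∈ Finset.range (K + 1), bf h K k t = 1 := by
  rw [Finset.sum_range_succ]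
  have h1 : ∑ k ∈ Finset.range K, bf h K k t =
      ∑ k ∈ Finset.range K, (cf h k t - cf h (k + 1) t) := by
    apply Finset.sum_congr rfl
    intro k hk
    rw [Finset.mem_range] at hk
    unfold bf
    rw [if_neg (by omega)]
  rw [h1, Finset.sum_range_sub']
  have h2 : cf h 0 t = 1 := by unfold cf; rw [if_pos rfl]
  have h3 : bf h K K t = cf h K t := by unfold bf; rw [if_pos rfl]
  rw [h2, h3]
  ring

lemma bf_left {h : ℝ} (hh : 0 < h) {K k : ℕ} {t : ℝ} (hk : 0 < ((k - 1 : ℕ) : ℝ) * h)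
    (ht : t ≤ ((k - 1 : ℕ) : ℝ) * h) : bf h K k t = 0 := by
  have hk1 : 0 < k - 1 := by
    by_contra hcon
    have : k - 1 = 0 := by omega
    rw [this] at hk
    simp at hk
  have hc : ((k - 1 : ℕ) : ℝ) = (k : ℝ) - 1 := by
    rw [Nat.cast_sub (by omega)]; simp
  rw [hc] at ht
  have h1 : cf h k t = 0 := cf_zero hh (by omega) ht
  unfold bf
  split_ifs with hK
  · rw [← hK]; exact h1
  · rw [h1, cf_zero hh (Nat.succ_ne_zero k)]
    · ring
    · push_cast
      nlinarith

lemma bf_right {h : ℝ} (hh : 0 < h) {K k : ℕ} (hkK : k ≠ K) {t : ℝ}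
    (ht : ((k + 1 : ℕ) : ℝ) * h ≤ t) : bf h K k t = 0 := by
  unfold bf
  rw [if_neg hkK, cf_one hh ht, cf_one hh]
  · ring
  · push_cast at ht
    nlinarith

lemma Pr_one {t : ℝ} : Pr (fun _ => 1) t = t := by
  unfold Pr
  simp

lemma crossTerm (hd : Dat Ω w g) (hN : 1 ≤ N) (hV : volume Ω = ENNReal.ofReal (om N)) :
    N * ∫ x, w x ≤ ∫ x, Real.sqrt (1 - 2 * N * w x) * ‖g x‖ := by
  have hN0 : (0 : ℝ) < N := by exact_mod_cast hN
  set κ : ℝ → ℝ := fun t => Real.sqrt (1 - 2 * N * t) with hκ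
  have hκc : Continuous κ := by
    simp only [hκ]
    fun_prop
  have hκ0 : ∀ t, 0 ≤ κ t := fun t => Real.sqrt_nonneg _
  have hκ1 : ∀ t, 0 ≤ t → κ t ≤ 1 := by
    intro t ht
    simp only [hκ]
    have : 0 ≤ 2 * (N : ℝ) * t := by positivity
    exact Real.sqrt_le_iff.2 ⟨zero_le_one, by linarith⟩
  have iκ : Integrable (fun x => κ (w x) * ‖g x‖) := by
    apply hd.int5 hκc
    intro t ht
    rw [abs_of_nonneg (hκ0 t)]
    exact hκ1 t ht
  have i1 : Integrable (fun x => ‖g x‖) := by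
    have := hd.int5 (β := fun _ => 1) continuous_const (by intro t _; simp)
    simpa using this
  have key : ∀ K : ℕ, 0 < K → N * ∫ x, w x ≤ (∫ x, κ (w x) * ‖g x‖) +
      Real.sqrt (2 / K) * ∫ x, ‖g x‖ := by
    intro K hK
    have hK0 : (0 : ℝ) < K := by exact_mod_cast hK
    set h : ℝ := 1 / (2 * N * K) with hh
    have hh0 : 0 < h := by positivity
    have hKh : K * h = 1 / (2 * N) := by rw [hh]; field_simp
    have h4Nh : 2 * N * (2 * h) = 2 / K := by rw [hh]; field_simp
    have hb := fun k => bf_cont h K k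
    have hb0 := fun k => bf_nonneg h K k
    have hb1 := fun k => bf_le_one h K k
    have hiso : ∀ k ∈ Finset.range (K + 1), N * ∫ x, Pr (bf h K k) (w x) ≤
        ∫ x, (κ (w x) + Real.sqrt (2 / K)) * (bf h K k (w x) * ‖g x‖) := by
      intro k hk
      rw [Finset.mem_range] at hk
      set s : ℝ := ((k - 1 : ℕ) : ℝ) * h with hs
      have hs0 : 0 ≤ s := by positivity
      have h1 := hd.iso (bf h K k) s (κ s) (hb k) (hb0 k) (hb1 k) hs0 (hκ0 s)
        (fun hspos t ht => bf_left hh0 hspos ht) (by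
          rw [← ofReal_measureReal (hd.SL_fin s)]
          exact ENNReal.ofReal_le_ofReal (hd.talentiClosed hN hV hs0))
      refine h1.trans ?_
      rw [← integral_const_mul]
      have i2 := hd.int2 (hb k) (hb0 k) (hb1 k)
      apply integral_mono_ae (i2.const_mul _)
      · have e1 : (fun x => (κ (w x) + Real.sqrt (2 / K)) * (bf h K k (w x) * ‖g x‖)) =
            fun x => (fun t => κ t * bf h K k t) (w x) * ‖g x‖ +
              Real.sqrt (2 / K) * (bf h K k (w x) * ‖g x‖) := by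
          ext x; ring
        rw [e1]
        apply Integrable.add _ (i2.const_mul _)
        apply hd.int5 (hκc.mul (hb k))
        intro t ht
        show |κ t * bf h K k t| ≤ 1
        rw [abs_of_nonneg (mul_nonneg (hκ0 t) (hb0 k t))]
        exact mul_le_one₀ (hκ1 t ht) (hb0 k t) (hb1 k t)
      · filter_upwards [hd.w_le hN hV] with x hx
        have hg0 := norm_nonneg (g x)
        have hbk := hb0 k (w x)
        have hmain : bf h K k (w x) ≠ 0 → κ s ≤ κ (w x) + Real.sqrt (2 / K) := by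
          intro hne
          have hwk : w x ≤ (k + 1) * h := by
            by_cases hkK : k = K
            · rw [hkK, add_mul, hKh]
              linarith
            · by_contra hcon
              push Not at hcon
              apply hne
              apply bf_right hh0 hkK
              push_cast
              exact hcon.le
          have hws : w x - s ≤ 2 * h := by
            by_cases hk0 : k = 0
            · rw [hs, hk0]
              rw [hk0] at hwk
              simp only [Nat.cast_zero, zero_add, one_mul] at hwk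
              simp
              linarith
            · have hc : ((k - 1 : ℕ) : ℝ) = (k : ℝ) - 1 := by
                rw [Nat.cast_sub (by omega)]; simp
              rw [hs, hc]
              linarith
          have h5 : 0 ≤ 1 - 2 * N * w x := by
            have h6 : 2 * N * w x ≤ 2 * N * (1 / (2 * N)) :=
              mul_le_mul_of_nonneg_left hx (by positivity)
            have h7 : 2 * (N : ℝ) * (1 / (2 * N)) = 1 := by field_simp
            linarith
          calc κ s ≤ Real.sqrt ((1 - 2 * N * w x) + 2 / K) := by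
                simp only [hκ]
                apply Real.sqrt_le_sqrt
                rw [← h4Nh]
                have : 2 * N * (w x - s) ≤ 2 * N * (2 * h) :=
                  mul_le_mul_of_nonneg_left hws (by positivity)
                linarith
            _ ≤ κ (w x) + Real.sqrt (2 / K) := by
                have h2K : (0 : ℝ) ≤ 2 / K := by positivity
                have q1 := Real.sq_sqrt h5
                have q2 := Real.sq_sqrt h2K
                have q3 := Real.sqrt_nonneg (1 - 2 * N * w x)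
                have q4 := Real.sqrt_nonneg (2 / (K : ℝ))
                refine Real.sqrt_le_iff.2 ⟨add_nonneg q3 q4, ?_⟩
                simp only [hκ]
                nlinarith [mul_nonneg q3 q4]
        by_cases hne : bf h K k (w x) = 0
        · simp [hne]
        · exact mul_le_mul_of_nonneg_right (hmain hne) (mul_nonneg hbk hg0)
    have hsum1 : ∫ x, w x = ∑ k ∈ Finset.range (K + 1), ∫ x, Pr (bf h K k) (w x) := by
      rw [← integral_finsetSum]
      · congr 1
        ext x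
        have e1 : ∑ k ∈ Finset.range (K + 1), Pr (bf h K k) (w x) =
            ∫ t in (0 : ℝ)..(w x), ∑ k ∈ Finset.range (K + 1), bf h K k t := by
          rw [intervalIntegral.integral_finsetSum]
          · rfl
          · intro k _
            exact (hb k).intervalIntegrable _ _
        rw [e1]
        simp only [bf_sum]
        simp
      · intro k _
        exact hd.int4 (hb k) (hb0 k) (hb1 k)
    rw [hsum1, Finset.mul_sum]
    refine (Finset.sum_le_sum hiso).trans (le_of_eq ?_)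
    rw [← integral_finsetSum]
    · rw [← integral_const_mul, ← integral_add iκ (i1.const_mul _)]
      congr 1
      ext x
      rw [← Finset.mul_sum, ← Finset.sum_mul, bf_sum, one_mul]
      ring
    · intro k _
      have i2 := hd.int2 (hb k) (hb0 k) (hb1 k)
      have e1 : (fun x => (κ (w x) + Real.sqrt (2 / K)) * (bf h K k (w x) * ‖g x‖)) =
          fun x => (fun t => κ t * bf h K k t) (w x) * ‖g x‖ +
            Real.sqrt (2 / K) * (bf h K k (w x) * ‖g x‖) := by
        ext x; ring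
      rw [e1]
      apply Integrable.add _ (i2.const_mul _)
      apply hd.int5 (hκc.mul (hb k))
      intro t ht
      show |κ t * bf h K k t| ≤ 1
      rw [abs_of_nonneg (mul_nonneg (hκ0 t) (hb0 k t))]
      exact mul_le_one₀ (hκ1 t ht) (hb0 k t) (hb1 k t)
  have hlim : Tendsto (fun K : ℕ => (∫ x, κ (w x) * ‖g x‖) +
      Real.sqrt (2 / K) * ∫ x, ‖g x‖) atTop
      (𝓝 ((∫ x, κ (w x) * ‖g x‖) + Real.sqrt 0 * ∫ x, ‖g x‖)) := by
    apply Tendsto.const_add
    apply Tendsto.mul_const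
    exact (Real.continuous_sqrt.tendsto 0).comp (tendsto_const_div_atTop_nhds_zero_nat 2)
  rw [Real.sqrt_zero, zero_mul, add_zero] at hlim
  apply ge_of_tendsto hlim
  filter_upwards [eventually_gt_atTop 0] with K hK
  exact key K hK

/-- M4 (star) -/
theorem star (hd : Dat Ω w g) (hN : 1 ≤ N) (hV : volume Ω = ENNReal.ofReal (om N)) :
    ∫ x in Ω, (Real.sqrt (1 - 2 * N * w x) - N * ‖g x‖) ^ 2 ≤
      N * (N + 2) * (TB N 1 - ∫ x, w x) := by
  have hN0 : (0 : ℝ) < N := by exact_mod_cast hN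
  have hom := om_pos N
  set κ : ℝ → ℝ := fun t => Real.sqrt (1 - 2 * N * t) with hκ
  have hκc : Continuous κ := by
    simp only [hκ]
    fun_prop
  have hκ0 : ∀ t, 0 ≤ κ t := fun t => Real.sqrt_nonneg _
  have hκ1 : ∀ t, 0 ≤ t → κ t ≤ 1 := by
    intro t ht
    simp only [hκ]
    have : 0 ≤ 2 * (N : ℝ) * t := by positivity
    exact Real.sqrt_le_iff.2 ⟨zero_le_one, by linarith⟩
  have iκ : Integrable (fun x => κ (w x) * ‖g x‖) := by
    apply hd.int5 hκc
    intro t ht
    rw [abs_of_nonneg (hκ0 t)]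
    exact hκ1 t ht
  have hvolΩ : volume.real Ω = om N := by
    unfold Measure.real
    rw [hV, ENNReal.toReal_ofReal hom.le]
  have e1 : ∫ x in Ω, (Real.sqrt (1 - 2 * N * w x) - N * ‖g x‖) ^ 2 =
      ∫ x in Ω, ((1 - 2 * N * w x) - 2 * N * (κ (w x) * ‖g x‖) + N ^ 2 * ‖g x‖ ^ 2) := by
    apply setIntegral_congr_ae hd.ms
    filter_upwards [hd.w_le hN hV] with x hx _
    have h5 : 0 ≤ 1 - 2 * N * w x := by
      have h6 : 2 * N * w x ≤ 2 * N * (1 / (2 * N)) :=
        mul_le_mul_of_nonneg_left hx (by positivity)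
      have h7 : 2 * (N : ℝ) * (1 / (2 * N)) = 1 := by field_simp
      linarith
    have h6 := Real.sq_sqrt h5
    simp only [hκ]
    nlinarith
  have j0 : IntegrableOn (fun x => (1 : ℝ) - 2 * N * w x) Ω := by
    apply Integrable.sub
    · exact integrableOn_const hd.fin
    · exact (hd.wint.const_mul _).integrableOn
  have j1 : IntegrableOn (fun x => 2 * N * (κ (w x) * ‖g x‖)) Ω := (iκ.const_mul _).integrableOn
  have j2 : IntegrableOn (fun x => (N : ℝ) ^ 2 * ‖g x‖ ^ 2) Ω :=
    (hd.gint.const_mul _).integrableOn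
  have j3 : IntegrableOn (fun x => (1 - 2 * N * w x) - 2 * N * (κ (w x) * ‖g x‖)) Ω := j0.sub j1
  have j4 : IntegrableOn (fun _ : E N => (1 : ℝ)) Ω := integrableOn_const hd.fin
  have j5 : IntegrableOn (fun x => 2 * N * w x) Ω := (hd.wint.const_mul _).integrableOn
  have k0 : ∫ x in Ω, (1 - 2 * N * w x) = om N - 2 * N * ∫ x in Ω, w x := by
    rw [integral_sub j4 j5, integral_const_mul, setIntegral_const, hvolΩ, smul_eq_mul, mul_one]
  rw [e1, integral_add j3 j2, integral_sub j0 j1, k0, integral_const_mul, integral_const_mul]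
  have k1 : ∫ x in Ω, w x = ∫ x, w x :=
    setIntegral_eq_integral_of_forall_compl_eq_zero hd.w0
  have k2 : ∫ x in Ω, κ (w x) * ‖g x‖ = ∫ x, κ (w x) * ‖g x‖ := by
    apply setIntegral_eq_integral_of_forall_compl_eq_zero
    intro x hx
    rw [hd.g0 x hx]
    simp
  have k3 : ∫ x in Ω, ‖g x‖ ^ 2 = ∫ x, ‖g x‖ ^ 2 := by
    apply setIntegral_eq_integral_of_forall_compl_eq_zero
    intro x hx
    rw [hd.g0 x hx]
    simp
  have k4 : ∫ x, ‖g x‖ ^ 2 = ∫ x, w x := by
    have := hd.EL (fun _ => 1) continuous_const (fun _ => zero_le_one) (fun _ => le_rfl)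
    simpa [Pr_one] using this
  have k5 := hd.crossTerm hN hV
  rw [k1, k2, k3, k4]
  have k6 : N * (N + 2) * (TB N 1 - ∫ x, w x) = om N - N * (N + 2) * ∫ x, w x := by
    unfold TB
    rw [one_pow]
    field_simp
  rw [k6]
  have k7 : 2 * N * (N * ∫ x, w x) ≤ 2 * N * ∫ x, κ (w x) * ‖g x‖ :=
    mul_le_mul_of_nonneg_left k5 (by positivity)
  nlinarith

end Dat

/-- A torsion pair has the properties `Dat`; the three properties of module M3a are taken as
hypotheses, with exactly the shape in which they are stated there. -/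
theorem dat_of_pair {N : ℕ} {Ω : Set (E N)} {u : ℕ → E N → ℝ} {w : E N → ℝ} {g : E N → E N}
    (hp : Pair Ω u w g)
    (hEL : ∀ {ψ : ℝ → ℝ}, ContDiff ℝ 1 ψ → ψ 0 = 0 → ∀ {C : ℝ}, (∀ s, |deriv ψ s| ≤ C) →
      ∫ x, deriv ψ (w x) * ‖g x‖ ^ 2 = ∫ x, ψ (w x))
    (hI : ∀ {ψ : ℝ → ℝ}, ContDiff ℝ 1 ψ → Monotone ψ → ∀ {s : ℝ}, 0 < s →
      (∀ t ≤ s, ψ t = 0) → ∀ {C : ℝ}, (∀ t, |deriv ψ t| ≤ C) → ∀ {r : ℝ}, 0 ≤ r →
      volume {x | s ≤ w x} ≤ ENNReal.ofReal (om N * r ^ N) →
      N * ∫ x, ψ (w x) ≤ r * ∫ x, deriv ψ (w x) * ‖g x‖)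
    (hI0 : ∀ {ψ : ℝ → ℝ}, ContDiff ℝ 1 ψ → Monotone ψ → ψ 0 = 0 → ∀ {C : ℝ},
      (∀ t, |deriv ψ t| ≤ C) → ∀ {r : ℝ}, 0 ≤ r →
      volume Ω ≤ ENNReal.ofReal (om N * r ^ N) →
      N * ∫ x, ψ (w x) ≤ r * ∫ x, deriv ψ (w x) * ‖g x‖) : Dat Ω w g where
  ms := hp.isOpen.measurableSet
  fin := hp.fin
  wm := hp.wm
  gm := hp.gm
  wpos := hp.wpos
  w0 := hp.w0
  g0 := hp.g0
  wint := hp.wint
  gint := hp.gint
  EL := by
    intro β hβ h0 h1
    have := hEL (Pr_contDiff hβ) (Pr_zero β) (C := 1) (by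
      intro s
      rw [Pr_deriv hβ, abs_of_nonneg (h0 s)]
      exact h1 s)
    rwa [Pr_deriv hβ] at this
  iso := by
    intro β s r hβ h0 h1 hs hr hz hv
    have hC : ∀ t, |deriv (Pr β) t| ≤ 1 := by
      intro t
      rw [Pr_deriv hβ, abs_of_nonneg (h0 t)]
      exact h1 t
    by_cases hs0 : s ≤ 0
    · unfold SL at hv
      rw [if_pos hs0] at hv
      have := hI0 (Pr_contDiff hβ) (Pr_mono hβ h0) (Pr_zero β) hC hr hv
      rwa [Pr_deriv hβ] at this
    · unfold SL at hv
      rw [if_neg hs0] at hv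
      push Not at hs0
      have hz' : ∀ t ≤ s, Pr β t = 0 := by
        intro t ht
        unfold Pr
        have : ∫ x in (0 : ℝ)..t, β x = ∫ x in (0 : ℝ)..t, (0 : ℝ) := by
          apply intervalIntegral.integral_congr
          intro x hx
          apply hz hs0
          have := hx.2
          rcases le_total 0 t with h | h
          · rw [max_eq_right h] at this
            linarith
          · rw [max_eq_left h] at this
            linarith
        rw [this]
        simp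
      have := hI (Pr_contDiff hβ) (Pr_mono hβ h0) hs0 hz' hC hr hv
      rwa [Pr_deriv hβ] at this

end Pool.Agent.Helper61.FK
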