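import Pool.Agent.Helper47.FK.PairB
import Pool.Agent.Helper61.FK.Talenti

/-!
# Module M4 for torsion pairs
-/

open MeasureTheory Metric Set Filter Topology
open scoped ENNReal

namespace Pool.Agent.Helper71.FK

open Pool.Agent.Helper61.FK

variable {N : ℕ} {Ω : Set (E N)} {u : ℕ → E N → ℝ} {w : E N → ℝ} {g : E N → E N}

/-- The data of module M4 attached to a torsion pair. -/
theorem Pair.dat (hp : Pair Ω u w g) (hIP : IP N) : Dat Ω w g :=
  dat_of_pair hp (fun {_} hψ h0 {_} hC => hp.eulerLagrange hψ h0 hC)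
    (fun {_} hψ hm {_} hs h0 {_} hC {_} hr hv => hp.isoperimetric hIP hψ hm hs h0 hC hr hv)
    (fun {_} hψ hm h0 {_} hC {_} hr hv => hp.isoperimetric0 hIP hψ hm h0 hC hr hv)

/-- M4 (Talenti), `|Ω| = om N` -/
theorem Pair.talenti (hN : 1 ≤ N) (hp : Pair Ω u w g) (hIP : IP N)
    (hV : volume Ω = ENNReal.ofReal (om N)) (s : ℝ) (hs : 0 ≤ s) :
    volume.real {x | s < w x} ≤ om N * (Real.sqrt (1 - 2 * N * s)) ^ N :=
  (hp.dat hIP).talenti hN hV s hs

/-- M4 (Talenti) for closed superlevel sets, `|Ω| = om N` -/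
theorem Pair.talentiClosed (hN : 1 ≤ N) (hp : Pair Ω u w g) (hIP : IP N)
    (hV : volume Ω = ENNReal.ofReal (om N)) {s : ℝ} (hs : 0 < s) :
    volume.real {x | s ≤ w x} ≤ om N * (Real.sqrt (1 - 2 * N * s)) ^ N := by
  have h := (hp.dat hIP).talentiClosed hN hV hs.le
  unfold SL at h
  rwa [if_neg (not_le.2 hs)] at h

/-- `w ≤ 1 / (2 N)` almost everywhere -/
theorem Pair.w_le (hN : 1 ≤ N) (hp : Pair Ω u w g) (hIP : IP N)
    (hV : volume Ω = ENNReal.ofReal (om N)) : ∀ᵐ x, w x ≤ 1 / (2 * N) :=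
  (hp.dat hIP).w_le hN hV

/-- M4 (star) -/
theorem Pair.star (hN : 1 ≤ N) (hp : Pair Ω u w g) (hIP : IP N)
    (hV : volume Ω = ENNReal.ofReal (om N)) :
    ∫ x in Ω, (Real.sqrt (1 - 2 * N * w x) - N * ‖g x‖) ^ 2 ≤
      N * (N + 2) * (TB N 1 - ∫ x, w x) :=
  (hp.dat hIP).star hN hV

end Pool.Agent.Helper71.FK
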