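import Mathlib
import Pool.Agent.Helper71.FK.Defs

/-!
# Module M6a: the convex `L¹` Poincare inequality
-/

open MeasureTheory Metric Set Filter Topology
open scoped ENNReal

namespace Pool.Agent.Helper61.FK

open Pool.Agent.Helper71.FK

variable {N : ℕ}

lemma lint_scale {G : E N → ℝ≥0∞} (hG : Measurable G) {K : Set (E N)} (hKm : MeasurableSet K)
    (hK : Convex ℝ K) {x : E N} (hx : x ∈ K) {t : ℝ} (ht : 1 / 2 ≤ t) (ht1 : t ≤ 1) :
    ∫⁻ y in K, G ((1 - t) • x + t • y) ≤ 2 ^ N * ∫⁻ y in K, G y := by
  have ht0 : 0 < t := by linarith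
  have hGi : Measurable (K.indicator G) := hG.indicator hKm
  calc ∫⁻ y in K, G ((1 - t) • x + t • y)
      = ∫⁻ y, K.indicator (fun y => G ((1 - t) • x + t • y)) y :=
        (lintegral_indicator hKm _).symm
    _ ≤ ∫⁻ y, K.indicator G ((1 - t) • x + t • y) := by
        apply lintegral_mono
        intro y
        by_cases hy : y ∈ K
        · have : (1 - t) • x + t • y ∈ K := hK hx hy (by linarith) ht0.le (by ring)
          simp only [indicator_of_mem hy, indicator_of_mem this, le_refl]
        · simp only [indicator_of_notMem hy, zero_le]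
    _ = ∫⁻ y, K.indicator G ((1 - t) • x + y) ∂(Measure.map (fun y : E N => t • y) volume) := by
        rw [lintegral_map]
        · exact hGi.comp (measurable_const_add _)
        · exact measurable_const_smul t
    _ = ENNReal.ofReal |(t ^ N)⁻¹| * ∫⁻ y, K.indicator G ((1 - t) • x + y) := by
        rw [Measure.map_addHaar_smul _ ht0.ne', lintegral_smul_measure,
          finrank_euclideanSpace_fin]
        rfl
    _ = ENNReal.ofReal |(t ^ N)⁻¹| * ∫⁻ y, K.indicator G y := by
        rw [lintegral_add_left_eq_self]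
    _ ≤ 2 ^ N * ∫⁻ y in K, G y := by
        rw [lintegral_indicator hKm]
        apply mul_le_mul_left
        have h1 : |(t ^ N)⁻¹| ≤ 2 ^ N := by
          rw [abs_of_pos (by positivity), ← inv_pow]
          apply pow_le_pow_left₀ (by positivity)
          rw [inv_le_comm₀ ht0 (by norm_num)]
          linarith
        calc ENNReal.ofReal |(t ^ N)⁻¹| ≤ ENNReal.ofReal (2 ^ N) := ENNReal.ofReal_le_ofReal h1
          _ = 2 ^ N := by
            rw [ENNReal.ofReal_pow (by norm_num)]
            norm_num

lemma lint_double {G : E N → ℝ≥0∞} (hG : Measurable G) {K : Set (E N)} (hKm : MeasurableSet K)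
    (hK : Convex ℝ K) {t : ℝ} (ht : 0 ≤ t) (ht1 : t ≤ 1) :
    ∫⁻ x in K, ∫⁻ y in K, G ((1 - t) • x + t • y) ≤ 2 ^ N * (∫⁻ y in K, G y) * volume K := by
  by_cases h : 1 / 2 ≤ t
  · calc ∫⁻ x in K, ∫⁻ y in K, G ((1 - t) • x + t • y)
        ≤ ∫⁻ x in K, 2 ^ N * ∫⁻ y in K, G y := by
          apply setLIntegral_mono' hKm
          intro x hx
          exact lint_scale hG hKm hK hx h ht1
      _ = _ := by rw [setLIntegral_const]
  · have hm : Measurable (Function.uncurry fun x y : E N => G ((1 - t) • x + t • y)) := by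
      apply hG.comp
      fun_prop
    rw [lintegral_lintegral_swap hm.aemeasurable]
    calc ∫⁻ y in K, ∫⁻ x in K, G ((1 - t) • x + t • y)
        ≤ ∫⁻ y in K, 2 ^ N * ∫⁻ x in K, G x := by
          apply setLIntegral_mono' hKm
          intro y hy
          have h1 := lint_scale hG hKm hK hy (t := 1 - t) (by linarith) (by linarith)
          refine le_trans (le_of_eq ?_) h1
          congr 1
          ext x
          congr 1
          rw [add_comm]
          congr 2
          ring
      _ = _ := by rw [setLIntegral_const]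

lemma pointwise {f : E N → ℝ} (hf : ContDiff ℝ 1 f) {D : ℝ} {x y : E N} (hD : ‖x - y‖ ≤ D) :
    ‖f y - f x‖ₑ ≤
      ENNReal.ofReal D * ∫⁻ t in Icc (0 : ℝ) 1, ‖gradient f ((1 - t) • x + t • y)‖ₑ := by
  have hγ : ∀ t : ℝ, HasDerivAt (fun t : ℝ => (1 - t) • x + t • y) (y - x) t := by
    intro t
    have h1 : HasDerivAt (fun t : ℝ => (1 - t) • x) ((-1 : ℝ) • x) t := by
      have := ((hasDerivAt_id t).const_sub 1).smul_const x
      simpa using this
    have h2 : HasDerivAt (fun t : ℝ => t • y) ((1 : ℝ) • y) t := by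
      have := (hasDerivAt_id t).smul_const y
      simpa using this
    have h3 := h1.add h2
    have h4 : (-1 : ℝ) • x + (1 : ℝ) • y = y - x := by
      rw [neg_smul, one_smul, one_smul]; abel
    rw [h4] at h3
    exact h3
  have hd : ∀ t : ℝ, HasDerivAt (fun t : ℝ => f ((1 - t) • x + t • y))
      (inner ℝ (gradient f ((1 - t) • x + t • y)) (y - x)) t := by
    intro t
    have h1 := ((hf.differentiable one_ne_zero) ((1 - t) • x + t • y)).hasGradientAt.hasFDerivAt
    have h2 := h1.comp_hasDerivAt t (hγ t)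
    rw [InnerProductSpace.toDual_apply_apply] at h2
    exact h2
  have hc : ContDiff ℝ 1 (fun t : ℝ => f ((1 - t) • x + t • y)) := by
    apply hf.comp
    fun_prop
  have h1 := enorm_sub_le_lintegral_deriv_of_contDiffOn_Icc (a := 0) (b := 1) hc.contDiffOn
    zero_le_one
  simp only [sub_zero, one_smul, zero_smul, add_zero, sub_self, zero_add] at h1
  refine h1.trans ?_
  rw [← lintegral_const_mul' _ _ ENNReal.ofReal_ne_top]
  apply lintegral_mono
  intro t
  simp only
  rw [(hd t).deriv]
  have h2 : ‖(inner ℝ (gradient f ((1 - t) • x + t • y)) (y - x) : ℝ)‖ ≤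
      D * ‖gradient f ((1 - t) • x + t • y)‖ := by
    refine (norm_inner_le_norm _ _).trans ?_
    rw [mul_comm]
    apply mul_le_mul_of_nonneg_right _ (norm_nonneg _)
    rwa [norm_sub_rev]
  have hD0 : 0 ≤ D := (norm_nonneg _).trans hD
  rw [← ofReal_norm, ← ofReal_norm, ← ENNReal.ofReal_mul hD0]
  exact ENNReal.ofReal_le_ofReal h2

/-- M6a (convex `L¹` Poincare inequality) -/
theorem convex_poincare {K : Set (E N)} (hK : Convex ℝ K) (hKm : MeasurableSet K)
    {D : ℝ} (hD : ∀ x ∈ K, ∀ y ∈ K, ‖x - y‖ ≤ D) (hKf : volume K ≠ ⊤) {f : E N → ℝ}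
    (hf : ContDiff ℝ 1 f) (hfi : IntegrableOn (fun x => ‖gradient f x‖) K) :
    ∫ x in K, ∫ y in K, |f x - f y| ≤
      2 ^ N * D * volume.real K * ∫ x in K, ‖gradient f x‖ := by
  rcases K.eq_empty_or_nonempty with rfl | ⟨x₀, hx₀⟩
  · simp
  have hD0 : 0 ≤ D := (norm_nonneg _).trans (hD x₀ hx₀ x₀ hx₀)
  have hgc : Continuous (gradient f) := by
    unfold gradient
    exact (InnerProductSpace.toDual ℝ (E N)).symm.continuous.comp (hf.continuous_fderiv one_ne_zero)
  have hG : Measurable fun z => ‖gradient f z‖ₑ := hgc.measurable.enorm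
  have hmain : ∫⁻ x in K, ∫⁻ y in K, ‖f y - f x‖ₑ ≤
      ENNReal.ofReal D * (2 ^ N * (∫⁻ y in K, ‖gradient f y‖ₑ) * volume K) := by
    calc ∫⁻ x in K, ∫⁻ y in K, ‖f y - f x‖ₑ
        ≤ ∫⁻ x in K, ∫⁻ y in K, ENNReal.ofReal D *
            ∫⁻ t in Icc (0 : ℝ) 1, ‖gradient f ((1 - t) • x + t • y)‖ₑ := by
          apply setLIntegral_mono' hKm
          intro x hx
          apply setLIntegral_mono' hKm
          intro y hy
          exact pointwise hf (hD x hx y hy)
      _ = ENNReal.ofReal D * ∫⁻ x in K, ∫⁻ y in K,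
            ∫⁻ t in Icc (0 : ℝ) 1, ‖gradient f ((1 - t) • x + t • y)‖ₑ := by
          rw [← lintegral_const_mul' _ _ ENNReal.ofReal_ne_top]
          congr 1
          ext x
          rw [lintegral_const_mul' _ _ ENNReal.ofReal_ne_top]
      _ = ENNReal.ofReal D * ∫⁻ t in Icc (0 : ℝ) 1, ∫⁻ x in K, ∫⁻ y in K,
            ‖gradient f ((1 - t) • x + t • y)‖ₑ := by
          congr 1
          have h1 : ∀ x : E N, ∫⁻ y in K,
              ∫⁻ t in Icc (0 : ℝ) 1, ‖gradient f ((1 - t) • x + t • y)‖ₑ =
              ∫⁻ t in Icc (0 : ℝ) 1, ∫⁻ y in K, ‖gradient f ((1 - t) • x + t • y)‖ₑ := by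
            intro x
            apply lintegral_lintegral_swap
            apply Measurable.aemeasurable
            apply hG.comp
            fun_prop
          simp_rw [h1]
          apply lintegral_lintegral_swap
          apply Measurable.aemeasurable
          have h2 : Measurable (fun p : (E N × ℝ) × E N =>
              ‖gradient f ((1 - p.1.2) • p.1.1 + p.1.2 • p.2)‖ₑ) := by
            apply hG.comp
            fun_prop
          exact h2.lintegral_prod_right'
      _ ≤ ENNReal.ofReal D * ∫⁻ t in Icc (0 : ℝ) 1,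
            2 ^ N * (∫⁻ y in K, ‖gradient f y‖ₑ) * volume K := by
          apply mul_le_mul_right
          apply setLIntegral_mono' measurableSet_Icc
          intro t ht
          exact lint_double hG hKm hK ht.1 ht.2
      _ = _ := by
          rw [setLIntegral_const]
          simp
  have hfin : ∫⁻ y in K, ‖gradient f y‖ₑ = ENNReal.ofReal (∫ x in K, ‖gradient f x‖) := by
    rw [ofReal_integral_eq_lintegral_ofReal hfi (Eventually.of_forall fun _ => norm_nonneg _)]
    congr 1
    ext x
    exact (ofReal_norm _).symm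
  have hI0 : 0 ≤ ∫ x in K, ‖gradient f x‖ := integral_nonneg fun _ => norm_nonneg _
  have h2 : ‖∫ x in K, ∫ y in K, |f x - f y|‖ₑ ≤
      ENNReal.ofReal (2 ^ N * D * volume.real K * ∫ x in K, ‖gradient f x‖) := by
    calc ‖∫ x in K, ∫ y in K, |f x - f y|‖ₑ
        ≤ ∫⁻ x in K, ‖∫ y in K, |f x - f y|‖ₑ := enorm_integral_le_lintegral_enorm _
      _ ≤ ∫⁻ x in K, ∫⁻ y in K, ‖f y - f x‖ₑ := by
          apply lintegral_mono
          intro x
          refine (enorm_integral_le_lintegral_enorm _).trans (le_of_eq ?_)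
          congr 1
          ext y
          rw [← ofReal_norm, ← ofReal_norm, Real.norm_eq_abs, abs_abs,
            Real.norm_eq_abs, abs_sub_comm]
      _ ≤ _ := hmain
      _ = _ := by
          rw [hfin, ← ENNReal.ofReal_toReal hKf]
          have h3 : (2 : ℝ≥0∞) ^ N = ENNReal.ofReal (2 ^ N) := by
            rw [ENNReal.ofReal_pow (by norm_num)]
            norm_num
          rw [h3, ← ENNReal.ofReal_mul (by positivity), ← ENNReal.ofReal_mul (by positivity),
            ← ENNReal.ofReal_mul hD0]
          congr 1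
          unfold Measure.real
          ring
  have h3 : 0 ≤ 2 ^ N * D * volume.real K * ∫ x in K, ‖gradient f x‖ := by positivity
  rw [← ofReal_norm, ENNReal.ofReal_le_ofReal_iff h3] at h2
  exact (le_abs_self _).trans h2

end Pool.Agent.Helper61.FK
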